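import Mathlib

set_option autoImplicit false

/-!
# Weyl's criterion on the torus, with weights

If all nontrivial exponential sums of a weighted sequence of points of the torus are `o` of the total weight, the proportion of
the weight in an open set is at least its Haar measure minus `ε`.
-/

namespace Pool.Agent.Q117.HH

open MeasureTheory Filter Topology Finset
open UnitAddTorus (mFourier)
open AddCircle (haarAddCircle)

/-- the Haar probability measure of the torus -/
noncomputable def mu (ι : Type) [Fintype ι] : Measure (ι → UnitAddCircle) :=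
  Measure.pi fun _ : ι => (haarAddCircle : Measure UnitAddCircle)

variable {ι : Type} [Fintype ι]

instance : IsProbabilityMeasure (mu ι) := by unfold mu; infer_instance

theorem int_fourier (n : ℤ) (hn : n ≠ 0) :
    ∫ x : UnitAddCircle, fourier n x ∂haarAddCircle = 0 := by
  have h := congrFun (fourierCoeff_fourier (T := 1) n) 0
  rw [Pi.single_eq_of_ne (Ne.symm hn)] at h
  unfold fourierCoeff at h
  simpa using h

theorem int_mF (k : ι → ℤ) (hk : k ≠ 0) : ∫ x, mFourier k x ∂mu ι = 0 := by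
  obtain ⟨i, hi⟩ := Function.ne_iff.1 hk
  have h1 : ∀ x : ι → UnitAddCircle, mFourier k x = ∏ i, fourier (k i) (x i) := fun x => rfl
  simp only [h1]
  unfold mu
  rw [integral_fintype_prod_eq_prod]
  exact Finset.prod_eq_zero (Finset.mem_univ i) (int_fourier _ hi)

/-- the weighted average -/
noncomputable def av (A : Finset ℕ) (w : ℕ → ℝ) (x : ℕ → ι → UnitAddCircle) (g : (ι → UnitAddCircle) → ℂ) : ℂ :=
  (∑ n ∈ A, (w n : ℂ) * g (x n)) / ((∑ n ∈ A, w n : ℝ) : ℂ)

omit [Fintype ι] in
theorem av_sub (A : Finset ℕ) (w : ℕ → ℝ) (x : ℕ → ι → UnitAddCircle) (g h : (ι → UnitAddCircle) → ℂ) :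
    av A w x (fun t => g t - h t) = av A w x g - av A w x h := by
  unfold av
  rw [← sub_div, ← sum_sub_distrib]
  simp only [mul_sub]

omit [Fintype ι] in
theorem av_norm {A : Finset ℕ} {w : ℕ → ℝ} (hw : ∀ n, 0 ≤ w n) {x : ℕ → ι → UnitAddCircle}
    {g : (ι → UnitAddCircle) → ℂ} {C : ℝ} (hC : 0 ≤ C) (hg : ∀ t, ‖g t‖ ≤ C) : ‖av A w x g‖ ≤ C := by
  unfold av
  rw [norm_div, Complex.norm_real, Real.norm_of_nonneg (sum_nonneg fun n _ => hw n)]
  rcases eq_or_lt_of_le (sum_nonneg fun n (_ : n ∈ A) => hw n) with h | h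
  · rw [← h, div_zero]; exact hC
  rw [div_le_iff₀ h]
  refine (norm_sum_le _ _).trans ?_
  rw [mul_sum]
  refine sum_le_sum fun n _ => ?_
  rw [norm_mul, Complex.norm_real, Real.norm_of_nonneg (hw n), mul_comm]
  exact mul_le_mul_of_nonneg_right (hg _) (hw n)

theorem av_tendsto {A : ℕ → Finset ℕ} {w : ℕ → ℝ} (hw : ∀ n, 0 ≤ w n) (x : ℕ → ι → UnitAddCircle)
    (hpos : ∀ᶠ N in atTop, 0 < ∑ n ∈ A N, w n)
    (h : ∀ k : ι → ℤ, k ≠ 0 → Tendsto (fun N => av (A N) w x (mFourier k)) atTop (𝓝 0))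
    (g : C(ι → UnitAddCircle, ℂ)) :
    Tendsto (fun N => av (A N) w x g) atTop (𝓝 (∫ t, g t ∂mu ι)) := by
  -- the span
  have hint : ∀ f : C(ι → UnitAddCircle, ℂ), Integrable (fun t => f t) (mu ι) := fun f => by
    refine Integrable.mono' (g := fun _ => ‖f‖) (integrable_const _) f.continuous.aestronglyMeasurable ?_
    exact ae_of_all _ fun t => f.norm_coe_le_norm t
  have hspan : ∀ f ∈ Submodule.span ℂ (Set.range (mFourier : (ι → ℤ) → C(ι → UnitAddCircle, ℂ))),
      Tendsto (fun N => av (A N) w x f) atTop (𝓝 (∫ t, f t ∂mu ι)) := by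
    intro f hf
    induction hf using Submodule.span_induction with
    | mem f hf =>
      obtain ⟨k, rfl⟩ := hf
      by_cases hk : k = 0
      · subst hk
        have h1 : ∀ t : ι → UnitAddCircle, mFourier (0 : ι → ℤ) t = 1 := fun t => by
          rw [UnitAddTorus.mFourier_zero]; rfl
        simp only [h1, integral_const, smul_eq_mul, mul_one, probReal_univ, one_smul]
        refine (tendsto_const_nhds (x := (1 : ℂ))).congr' ?_
        filter_upwards [hpos] with N hN
        unfold av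
        simp only [h1, mul_one]
        rw [← Complex.ofReal_sum, div_self]
        exact_mod_cast hN.ne'
      · rw [int_mF k hk]; exact h k hk
    | zero =>
      have h1 : ∀ t : ι → UnitAddCircle, (0 : C(ι → UnitAddCircle, ℂ)) t = 0 := fun t => rfl
      simp only [h1, integral_zero]
      refine (tendsto_const_nhds (x := (0 : ℂ))).congr fun N => ?_
      unfold av
      simp
    | add f g _ _ hf hg =>
      have h1 : ∀ t : ι → UnitAddCircle, (f + g) t = f t + g t := fun t => rfl
      simp only [h1]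
      rw [integral_add (hint f) (hint g)]
      refine (hf.add hg).congr fun N => ?_
      unfold av
      rw [← add_div, ← sum_add_distrib]
      simp only [h1, mul_add]
    | smul a f _ hf =>
      have h1 : ∀ t : ι → UnitAddCircle, (a • f) t = a * f t := fun t => rfl
      simp only [h1]
      rw [integral_const_mul]
      refine (hf.const_mul a).congr fun N => ?_
      unfold av
      rw [← mul_div_assoc, mul_sum]
      congr 1
      refine sum_congr rfl fun n _ => ?_
      rw [h1]; ring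
  rw [Metric.tendsto_atTop]
  intro ε hε
  have hg : g ∈ (Submodule.span ℂ (Set.range (mFourier : (ι → ℤ) → C(ι → UnitAddCircle, ℂ)))).topologicalClosure := by
    rw [UnitAddTorus.span_mFourier_closure_eq_top]; trivial
  rw [← SetLike.mem_coe, Submodule.topologicalClosure_coe, Metric.mem_closure_iff] at hg
  obtain ⟨f, hf, hfg⟩ := hg (ε / 4) (by positivity)
  have hd : ∀ t, ‖g t - f t‖ ≤ ε / 4 := fun t => by
    rw [← dist_eq_norm]
    exact (ContinuousMap.dist_apply_le_dist t).trans hfg.le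
  have h1 := hspan f hf
  rw [Metric.tendsto_atTop] at h1
  obtain ⟨N0, hN0⟩ := h1 (ε / 4) (by positivity)
  refine ⟨N0, fun N hN => ?_⟩
  have h2 := hN0 N hN
  rw [dist_eq_norm] at h2 ⊢
  have h3 : ‖av (A N) w x (fun t => g t - f t)‖ ≤ ε / 4 := av_norm hw (by positivity) hd
  rw [av_sub] at h3
  have h4 : ‖∫ t, g t ∂mu ι - ∫ t, f t ∂mu ι‖ ≤ ε / 4 := by
    rw [← integral_sub (hint g) (hint f)]
    refine (norm_integral_le_of_norm_le_const (C := ε / 4) (ae_of_all _ hd)).trans ?_
    rw [probReal_univ, mul_one]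
  calc ‖av (A N) w x g - ∫ t, g t ∂mu ι‖
      = ‖(av (A N) w x g - av (A N) w x f) + (av (A N) w x f - ∫ t, f t ∂mu ι) -
          (∫ t, g t ∂mu ι - ∫ t, f t ∂mu ι)‖ := by congr 1; ring
    _ ≤ ‖(av (A N) w x g - av (A N) w x f) + (av (A N) w x f - ∫ t, f t ∂mu ι)‖ +
          ‖∫ t, g t ∂mu ι - ∫ t, f t ∂mu ι‖ := norm_sub_le _ _
    _ ≤ ‖av (A N) w x g - av (A N) w x f‖ + ‖av (A N) w x f - ∫ t, f t ∂mu ι‖ +
          ‖∫ t, g t ∂mu ι - ∫ t, f t ∂mu ι‖ := by gcongr; exact norm_add_le _ _
    _ < ε := by linarith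

/-- **Weyl's criterion**, lower bound for open sets -/
theorem open_lower {A : ℕ → Finset ℕ} {w : ℕ → ℝ} (hw : ∀ n, 0 ≤ w n) (x : ℕ → ι → UnitAddCircle)
    (hpos : ∀ᶠ N in atTop, 0 < ∑ n ∈ A N, w n)
    (h : ∀ k : ι → ℤ, k ≠ 0 → Tendsto (fun N => av (A N) w x (mFourier k)) atTop (𝓝 0))
    {U : Set (ι → UnitAddCircle)} (hU : IsOpen U) {c : ℝ} (hc : c < (mu ι).real U) [DecidablePred (· ∈ U)] :
    ∀ᶠ N in atTop, c * ∑ n ∈ A N, w n ≤ ∑ n ∈ (A N).filter (fun n => x n ∈ U), w n := by
  rcases lt_or_ge c 0 with hc0 | hc0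
  · filter_upwards [hpos] with N hN
    have h1 : 0 ≤ ∑ n ∈ (A N).filter (fun n => x n ∈ U), w n := sum_nonneg fun n _ => hw n
    nlinarith
  obtain ⟨K, hKU, hK, hcK⟩ := hU.exists_lt_isCompact (μ := mu ι) (r := ENNReal.ofReal c) (by
    rw [ENNReal.ofReal_lt_iff_lt_toReal hc0 (measure_ne_top _ _)]
    exact hc)
  obtain ⟨f, hf0, hf1, hf⟩ := exists_continuous_zero_one_of_isClosed (s := Uᶜ) (t := K) hU.isClosed_compl
    hK.isClosed (Set.disjoint_left.2 fun t ht ht2 => ht (hKU ht2))
  have hfi : Integrable (fun t => f t) (mu ι) :=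
    Integrable.mono' (g := fun _ => 1) (integrable_const _) f.continuous.aestronglyMeasurable
      (ae_of_all _ fun t => by rw [Real.norm_of_nonneg (hf t).1]; exact (hf t).2)
  have hI : c < ∫ t, f t ∂mu ι := by
    have h1 : (mu ι).real K ≤ ∫ t, f t ∂mu ι := by
      rw [← integral_indicator_one hK.measurableSet]
      refine integral_mono ((integrable_const (1 : ℝ)).indicator hK.measurableSet) hfi fun t => ?_
      by_cases ht : t ∈ K
      · simp only [Set.indicator_of_mem ht, Pi.one_apply]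
        exact (hf1 ht).ge
      · simp only [Set.indicator_of_notMem ht]
        exact (hf t).1
    have h2 : c < (mu ι).real K := by
      rw [ENNReal.ofReal_lt_iff_lt_toReal hc0 (measure_ne_top _ _)] at hcK
      exact hcK
    linarith
  have hT := av_tendsto hw x hpos h ⟨fun t => (f t : ℂ), by fun_prop⟩
  have hT2 : Tendsto (fun N => (∑ n ∈ A N, w n * f (x n)) / ∑ n ∈ A N, w n) atTop (𝓝 (∫ t, f t ∂mu ι)) := by
    have h1 := (Complex.continuous_re.tendsto _).comp hT
    have e1 : (∫ t, (⟨fun t => (f t : ℂ), by fun_prop⟩ : C(ι → UnitAddCircle, ℂ)) t ∂mu ι) =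
        ((∫ t, f t ∂mu ι : ℝ) : ℂ) := integral_ofReal
    rw [e1, Complex.ofReal_re] at h1
    refine h1.congr fun N => ?_
    simp only [Function.comp]
    unfold av
    have e2 : (∑ n ∈ A N, (w n : ℂ) * (⟨fun t => (f t : ℂ), by fun_prop⟩ : C(ι → UnitAddCircle, ℂ)) (x n)) =
        ((∑ n ∈ A N, w n * f (x n) : ℝ) : ℂ) := by
      push_cast; rfl
    rw [e2, ← Complex.ofReal_div, Complex.ofReal_re]
  filter_upwards [hT2.eventually (lt_mem_nhds hI), hpos] with N hN hN2
  rw [lt_div_iff₀ hN2] at hN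
  refine hN.le.trans ?_
  rw [sum_filter]
  refine sum_le_sum fun n _ => ?_
  by_cases ht : x n ∈ U
  · rw [if_pos ht]
    exact mul_le_of_le_one_right (hw n) (hf _).2
  · rw [if_neg ht, show f (x n) = 0 from hf0 ht, mul_zero]

end Pool.Agent.Q117.HH
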