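import Pool.Agent.Q117.HH.A
import Pool.Agent.Q257.MD.PPrime

set_option autoImplicit false

/-!
# Joint equidistribution of `(θ_i f(n) + β_i)_i` for an integral polynomial `f`, along the integers and along the primes

If no nontrivial integral combination of the `θ_i` is rational, the proportion of the `n ≤ N`, and of the primes `n ≤ N`, with
`θ_i f(n) + β_i` modulo one in open arcs is at least the product of the lengths of the arcs minus `ε`.
-/

namespace Pool.Agent.Q117.HH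

open MeasureTheory Filter Topology Finset Polynomial
open UnitAddTorus (mFourier)
open AddCircle (haarAddCircle)
open Pool.Agent.Helper602.MK (ee)
open Pool.Agent.Helper602.MK.N_J5b (ee_add norm_ee)
open scoped Nat.Prime

variable {ι : Type} [Fintype ι]

/-- the open arc from `a` to `b` -/
def arc (a b : ℝ) : Set UnitAddCircle := (fun t : ℝ => (t : UnitAddCircle)) '' Set.Ioo a b

theorem arc_open (a b : ℝ) : IsOpen (arc a b) := QuotientAddGroup.isOpenMap_coe _ isOpen_Ioo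

theorem mem_arc {a b t : ℝ} (h : (t : UnitAddCircle) ∈ arc a b) : ∃ j : ℤ, a < t - j ∧ t - j < b := by
  obtain ⟨u, hu, hut⟩ := h
  have h1 : ((t - u : ℝ) : UnitAddCircle) = 0 := by
    rw [AddCircle.coe_sub, ← hut, sub_self]
  obtain ⟨j, hj⟩ := (AddCircle.coe_eq_zero_iff (p := (1 : ℝ))).1 h1
  have h2 : t - j = u := by
    rw [zsmul_eq_mul, mul_one] at hj
    linarith
  exact ⟨j, by rw [h2]; exact hu.1, by rw [h2]; exact hu.2⟩

theorem arc_haar {a b : ℝ} (hb : b ≤ a + 1) : ENNReal.ofReal (b - a) ≤ haarAddCircle (arc a b) := by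
  have h1 := AddCircle.measurePreserving_mk 1 a
  have h2 := h1.measure_preimage (arc_open a b).measurableSet.nullMeasurableSet
  rw [AddCircle.volume_eq_smul_haarAddCircle, ENNReal.ofReal_one, one_smul] at h2
  rw [← h2, ← Real.volume_Ioo, Measure.restrict_apply' measurableSet_Ioc]
  refine measure_mono fun t ht => ⟨⟨t, ht, rfl⟩, ht.1, ht.2.le.trans hb⟩

theorem box_ge {a b : ι → ℝ} (hab : ∀ i, a i ≤ b i) (h : ∀ i, b i ≤ a i + 1) :
    ∏ i, (b i - a i) ≤ (mu ι).real (Set.pi Set.univ fun i => arc (a i) (b i)) := by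
  have h1 : ENNReal.ofReal (∏ i, (b i - a i)) ≤ mu ι (Set.pi Set.univ fun i => arc (a i) (b i)) := by
    unfold mu
    rw [Measure.pi_pi, ENNReal.ofReal_prod_of_nonneg fun i _ => sub_nonneg.2 (hab i)]
    exact Finset.prod_le_prod' fun i _ => arc_haar (h i)
  rw [measureReal_def]
  exact (ENNReal.ofReal_le_iff_le_toReal (measure_ne_top _ _)).1 h1

/-- the points `θ_i f(n) + β_i` -/
noncomputable def pt (θ β : ι → ℝ) (f : ℤ[X]) (n : ℕ) : ι → UnitAddCircle := fun i =>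
  ((θ i * ((f.eval (n : ℤ) : ℤ) : ℝ) + β i : ℝ) : UnitAddCircle)

theorem mF_pt (θ β : ι → ℝ) (f : ℤ[X]) (k : ι → ℤ) (n : ℕ) :
    mFourier k (pt θ β f n) = ee ((∑ i, (k i : ℝ) * θ i) * ((f.eval (n : ℤ) : ℤ) : ℝ)) *
      ee (∑ i, (k i : ℝ) * β i) := by
  have h1 : mFourier k (pt θ β f n) = ∏ i, fourier (k i) (pt θ β f n i) := rfl
  rw [h1, ← ee_add]
  unfold ee pt
  simp only [fourier_coe_apply, Complex.ofReal_one, div_one]
  rw [← Complex.exp_sum]
  congr 1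
  push_cast
  rw [sum_mul, ← sum_add_distrib, mul_sum, sum_mul]
  refine sum_congr rfl fun i _ => ?_
  ring

theorem norm_mul_ee (z : ℂ) (t : ℝ) : ‖z * ee t‖ = ‖z‖ := by rw [norm_mul, norm_ee, mul_one]

/-! ### the integers -/

theorem av_int {θ β : ι → ℝ} (hθ : ∀ k : ι → ℤ, k ≠ 0 → Irrational (∑ i, (k i : ℝ) * θ i)) (f : ℤ[X])
    (hf : 1 ≤ f.natDegree) (k : ι → ℤ) (hk : k ≠ 0) :
    Tendsto (fun N : ℕ => av (Icc 1 N) (fun _ => 1) (pt θ β f) (mFourier k)) atTop (𝓝 0) := by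
  have h1 := Q257.MD.weyl_zero f hf _ (hθ k hk)
  have h2 : Tendsto (fun N : ℕ => (2 : ℝ) / N) atTop (𝓝 0) :=
    tendsto_const_nhds.div_atTop tendsto_natCast_atTop_atTop
  have h3 := h1.add h2
  rw [add_zero] at h3
  refine squeeze_zero_norm (fun N => ?_) h3
  unfold av
  simp only [mF_pt, Complex.ofReal_one, one_mul, sum_const, Nat.card_Icc, Nat.add_sub_cancel, nsmul_eq_mul,
    mul_one]
  rw [← sum_mul, norm_div, norm_mul_ee, ← add_div]
  rw [Complex.norm_real, Real.norm_of_nonneg (Nat.cast_nonneg N)]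
  refine div_le_div_of_nonneg_right ?_ (Nat.cast_nonneg N)
  set g : ℕ → ℂ := fun n => ee ((∑ i, (k i : ℝ) * θ i) * ((f.eval (n : ℤ) : ℤ) : ℝ)) with hg
  have e1 : ∑ n ∈ Icc 1 N, g n = ∑ n ∈ range N, g n + g N - g 0 := by
    rw [← sum_range_succ, sum_range_succ', add_sub_cancel_right, show Icc 1 N = Ico 1 (N + 1) by
      ext; simp only [mem_Icc, mem_Ico]; omega, sum_Ico_eq_sum_range, Nat.add_sub_cancel]
    exact sum_congr rfl fun n _ => by rw [Nat.add_comm]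
  have e2 : ‖g N‖ = 1 := norm_ee _
  have e3 : ‖g 0‖ = 1 := norm_ee _
  calc ‖∑ n ∈ Icc 1 N, g n‖ = ‖∑ n ∈ range N, g n + g N - g 0‖ := by rw [e1]
    _ ≤ ‖∑ n ∈ range N, g n + g N‖ + ‖g 0‖ := norm_sub_le _ _
    _ ≤ ‖∑ n ∈ range N, g n‖ + ‖g N‖ + ‖g 0‖ := by gcongr; exact norm_add_le _ _
    _ = ‖∑ n ∈ range N, g n‖ + 2 := by rw [e2, e3]; ring

open Classical in
/-- **Joint equidistribution along the integers**, for open sets. -/
theorem int_open {θ β : ι → ℝ} (hθ : ∀ k : ι → ℤ, k ≠ 0 → Irrational (∑ i, (k i : ℝ) * θ i)) (f : ℤ[X])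
    (hf : 1 ≤ f.natDegree) {U : Set (ι → UnitAddCircle)} (hU : IsOpen U) {c : ℝ} (hc : c < (mu ι).real U) :
    ∀ᶠ N : ℕ in atTop, c * N ≤ ((Icc 1 N).filter fun n => pt θ β f n ∈ U).card := by
  have h1 := open_lower (A := fun N => Icc 1 N) (w := fun _ => 1) (fun _ => zero_le_one) (pt θ β f) (by
    filter_upwards [eventually_ge_atTop 1] with N hN
    simp only [sum_const, Nat.card_Icc, nsmul_eq_mul, mul_one]
    have : 0 < N + 1 - 1 := by omega
    exact_mod_cast this) (av_int hθ f hf) hU hc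
  filter_upwards [h1] with N hN
  simpa using hN

/-! ### the primes -/

/-- the primes up to `N` -/
def PP (N : ℕ) : Finset ℕ := (Icc 1 N).filter Nat.Prime

theorem PN_eq (N : ℕ) : Q257.MD.PN 1 0 0 N = PP N := by
  unfold Q257.MD.PN PP
  refine filter_congr fun n hn => ?_
  rw [mem_Icc] at hn
  constructor
  · exact fun h => h.1
  · exact fun h => ⟨h, by omega, by simp⟩

theorem card_PP (N : ℕ) : (PP N).card = π N := by
  rw [Nat.primeCounting, Nat.primeCounting', Nat.count_eq_card_filter_range]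
  unfold PP
  congr 1
  ext n
  simp only [mem_filter, mem_Icc, mem_range]
  constructor
  · rintro ⟨⟨_, h2⟩, h3⟩; exact ⟨by omega, h3⟩
  · rintro ⟨h2, h3⟩; exact ⟨⟨h3.one_lt.le, by omega⟩, h3⟩

theorem theta_PP (N : ℕ) : Chebyshev.theta (N : ℝ) = ∑ n ∈ PP N, Real.log n := by
  rw [Chebyshev.theta_eq_sum_Icc, Nat.floor_natCast]
  unfold PP
  refine sum_congr ?_ fun _ _ => rfl
  ext n
  simp only [mem_filter, mem_Icc]
  constructor
  · rintro ⟨⟨_, h2⟩, h3⟩; exact ⟨⟨h3.one_lt.le, h2⟩, h3⟩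
  · rintro ⟨⟨_, h2⟩, h3⟩; exact ⟨⟨by omega, h2⟩, h3⟩

theorem W_ge : ∃ c : ℝ, 0 < c ∧ ∀ᶠ N : ℕ in atTop, c * N ≤ ∑ n ∈ PP N, Real.log n := by
  obtain ⟨c, hc, N0, h⟩ := Q257.MD.W_lower 1 one_pos 0 (by simp) 0
  refine ⟨c, hc, ?_⟩
  filter_upwards [eventually_ge_atTop N0] with N hN
  have := h N hN
  rwa [show ((0 : ℕ) : ℤ) = 0 from rfl, PN_eq] at this

theorem av_prime {θ β : ι → ℝ} (hθ : ∀ k : ι → ℤ, k ≠ 0 → Irrational (∑ i, (k i : ℝ) * θ i)) (f : ℤ[X])
    (hf : 1 ≤ f.natDegree) (k : ι → ℤ) (hk : k ≠ 0) :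
    Tendsto (fun N : ℕ => av (PP N) (fun n => Real.log n) (pt θ β f) (mFourier k)) atTop (𝓝 0) := by
  obtain ⟨c, hc, hW⟩ := W_ge
  have h1 := Q257.MD.lam_zero f hf 1 one_pos 0 _ (hθ k hk)
  have h2 := (h1.add (Q257.MD.Err_zero 0)).mul_const (1 / c)
  rw [add_zero, zero_mul] at h2
  refine squeeze_zero_norm' ?_ h2
  filter_upwards [hW, eventually_ge_atTop 1] with N hN hN1
  have hNr : (0 : ℝ) < N := by exact_mod_cast hN1
  set T : ℝ := ∑ i, (k i : ℝ) * θ i with hT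
  have h4 := Q257.MD.diff_le 1 0 0 N hN1 (fun n => ee (T * ((f.eval (n : ℤ) : ℤ) : ℝ))) fun n => (norm_ee _).le
  rw [PN_eq] at h4
  have h5 : ‖∑ n ∈ PP N, ((Real.log n : ℝ) : ℂ) * ee (T * ((f.eval (n : ℤ) : ℤ) : ℝ))‖ ≤
      ‖∑ n ∈ Icc 1 N, Q257.MD.FF f 1 0 T n‖ + Q257.MD.Err 0 N := by
    have e1 : ∑ n ∈ Icc 1 N, Q257.MD.FF f 1 0 T n = ∑ n ∈ Icc 1 N, (if ((1 : ℕ) : ℤ) ∣ (n : ℤ) - 0 then
        ((ArithmeticFunction.vonMangoldt n : ℝ) : ℂ) * ee (T * ((f.eval (n : ℤ) : ℤ) : ℝ)) else 0) := rfl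
    rw [e1]
    set Y := ∑ n ∈ PP N, ((Real.log n : ℝ) : ℂ) * ee (T * ((f.eval (n : ℤ) : ℤ) : ℝ)) with hY
    set Z := ∑ n ∈ Icc 1 N, (if ((1 : ℕ) : ℤ) ∣ (n : ℤ) - 0 then
        ((ArithmeticFunction.vonMangoldt n : ℝ) : ℂ) * ee (T * ((f.eval (n : ℤ) : ℤ) : ℝ)) else 0) with hZ
    calc ‖Y‖ = ‖Z - (Z - Y)‖ := by congr 1; ring
      _ ≤ ‖Z‖ + ‖Z - Y‖ := norm_sub_le _ _
      _ ≤ _ := by gcongr
  unfold av
  simp only [mF_pt]
  have e2 : ∑ n ∈ PP N, ((Real.log n : ℝ) : ℂ) * (ee (T * ((f.eval (n : ℤ) : ℤ) : ℝ)) * ee (∑ i, (k i : ℝ) * β i)) =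
      (∑ n ∈ PP N, ((Real.log n : ℝ) : ℂ) * ee (T * ((f.eval (n : ℤ) : ℤ) : ℝ))) * ee (∑ i, (k i : ℝ) * β i) := by
    rw [sum_mul]
    exact sum_congr rfl fun n _ => by ring
  rw [e2, norm_div, norm_mul_ee, Complex.norm_real]
  have h6 : c * N ≤ ‖∑ n ∈ PP N, Real.log n‖ := hN.trans (Real.le_norm_self _)
  calc ‖∑ n ∈ PP N, ((Real.log n : ℝ) : ℂ) * ee (T * ((f.eval (n : ℤ) : ℤ) : ℝ))‖ / ‖∑ n ∈ PP N, Real.log n‖
      ≤ (‖∑ n ∈ Icc 1 N, Q257.MD.FF f 1 0 T n‖ + Q257.MD.Err 0 N) / (c * N) := by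
        refine div_le_div₀ ((norm_nonneg _).trans h5) h5 (by positivity) h6
    _ = _ := by field_simp

/-- `θ(N)` against `π(N) log N` -/
theorem theta_pi {δ : ℝ} (hδ : 0 < δ) : ∀ᶠ N : ℕ in atTop,
    (1 - δ) * ((π N : ℝ) * Real.log N) ≤ ∑ n ∈ PP N, Real.log n := by
  obtain ⟨C, hC⟩ := (Chebyshev.primeCounting_sub_theta_div_log_isBigO).bound
  obtain ⟨c, hc, hW⟩ := W_ge
  have h1 := tendsto_natCast_atTop_atTop.eventually hC
  have h2 : Tendsto (fun N : ℕ => Real.log N) atTop atTop := Real.tendsto_log_atTop.comp tendsto_natCast_atTop_atTop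
  filter_upwards [h1, hW, h2.eventually_ge_atTop (max 1 (|C| / (c * δ))), eventually_ge_atTop 2] with N h1 h3 h4 hN
  have hL1 : 1 ≤ Real.log N := (le_max_left _ _).trans h4
  have hL2 : |C| / (c * δ) ≤ Real.log N := (le_max_right _ _).trans h4
  have hNr : (0 : ℝ) < N := by
    have : 0 < N := by omega
    exact_mod_cast this
  rw [Nat.floor_natCast, theta_PP] at h1
  have h5 := Chebyshev.theta_le_pi_mul_log N
  rw [theta_PP] at h5
  set L := Real.log N with hL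
  set S := ∑ n ∈ PP N, Real.log n with hS
  have hL0 : 0 < L := by linarith
  have h6 : (π N : ℝ) - S / L ≤ |C| * (N / L ^ 2) := by
    have e1 : ‖(N : ℝ) / L ^ 2‖ = N / L ^ 2 := Real.norm_of_nonneg (by positivity)
    rw [e1] at h1
    exact (le_abs_self _).trans (h1.trans (mul_le_mul_of_nonneg_right (le_abs_self _) (by positivity)))
  have h7 : (π N : ℝ) * L - S ≤ |C| * N / L := by
    have := mul_le_mul_of_nonneg_right h6 hL0.le
    have e1 : ((π N : ℝ) - S / L) * L = π N * L - S := by field_simp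
    have e2 : |C| * (N / L ^ 2) * L = |C| * N / L := by field_simp
    rwa [e1, e2] at this
  have h8 : |C| * N / L ≤ δ * (π N * L) := by
    rw [div_le_iff₀ hL0]
    have h9 : |C| ≤ c * δ * L := by
      rw [div_le_iff₀ (by positivity)] at hL2
      linarith
    calc |C| * N ≤ (c * δ * L) * N := by gcongr
      _ = δ * (c * N) * L := by ring
      _ ≤ δ * (π N * L) * L := mul_le_mul_of_nonneg_right (mul_le_mul_of_nonneg_left (h3.trans h5) hδ.le) hL0.le
  linarith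

open Classical in
/-- **Joint equidistribution along the primes**, for open sets. -/
theorem prime_open {θ β : ι → ℝ} (hθ : ∀ k : ι → ℤ, k ≠ 0 → Irrational (∑ i, (k i : ℝ) * θ i)) (f : ℤ[X])
    (hf : 1 ≤ f.natDegree) {U : Set (ι → UnitAddCircle)} (hU : IsOpen U) {c : ℝ} (hc : c < (mu ι).real U) :
    ∀ᶠ N : ℕ in atTop, c * (π N : ℝ) ≤ ((PP N).filter fun n => pt θ β f n ∈ U).card := by
  rcases lt_or_ge c 0 with hc0 | hc0
  · refine Eventually.of_forall fun N => ?_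
    have h1 : (0 : ℝ) ≤ ((PP N).filter fun n => pt θ β f n ∈ U).card := Nat.cast_nonneg _
    have h2 : (0 : ℝ) ≤ π N := Nat.cast_nonneg _
    nlinarith
  obtain ⟨c', h1, h2⟩ := exists_between hc
  have hc' : 0 < c' := hc0.trans_lt h1
  have hW : ∀ᶠ N : ℕ in atTop, 0 < ∑ n ∈ PP N, Real.log n := by
    obtain ⟨a, ha, h⟩ := W_ge
    filter_upwards [h, eventually_ge_atTop 1] with N h hN
    have hNr : (0 : ℝ) < N := by exact_mod_cast hN
    exact (by positivity : (0 : ℝ) < a * N).trans_le h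
  have h3 := open_lower (A := PP) (w := fun n => Real.log n) (fun n => Real.log_natCast_nonneg n) (pt θ β f) hW
    (av_prime hθ f hf) hU h2
  have hδ : 0 < 1 - c / c' := by
    rw [sub_pos, div_lt_one hc']; exact h1
  filter_upwards [h3, theta_pi hδ, eventually_ge_atTop 3] with N h4 h5 hN
  have hL : 0 < Real.log N := Real.log_pos (by
    have : (3 : ℝ) ≤ N := by exact_mod_cast hN
    linarith)
  have h6 : ∑ n ∈ (PP N).filter (fun n => pt θ β f n ∈ U), Real.log n ≤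
      ((PP N).filter fun n => pt θ β f n ∈ U).card * Real.log N := by
    rw [← nsmul_eq_mul]
    refine sum_le_card_nsmul _ _ _ fun n hn => ?_
    have h7 := (mem_Icc.1 (mem_filter.1 (mem_filter.1 hn).1).1)
    exact Real.log_le_log (by exact_mod_cast h7.1) (by exact_mod_cast h7.2)
  have h7 : c' * ((1 - (1 - c / c')) * ((π N : ℝ) * Real.log N)) ≤
      ((PP N).filter fun n => pt θ β f n ∈ U).card * Real.log N :=
    (mul_le_mul_of_nonneg_left h5 hc'.le).trans (h4.trans h6)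
  have e1 : c' * ((1 - (1 - c / c')) * ((π N : ℝ) * Real.log N)) = c * (π N : ℝ) * Real.log N := by
    field_simp; ring
  rw [e1] at h7
  exact le_of_mul_le_mul_right h7 hL

end Pool.Agent.Q117.HH
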