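import Pool.Agent.Q117.HH.B
import Pool.Agent.H383.LinIndep

set_option autoImplicit false

/-!
# Windows around `√r (2 m + 1)` for several `r` at once
-/

namespace Pool.Agent.Q117.HH

open MeasureTheory Filter Topology Finset Polynomial
open scoped Nat.Prime

variable {ι : Type} [Fintype ι]

theorem irr_comb {a : ι → ℕ} (ha : ∀ i, Squarefree (a i)) (h1 : ∀ i, a i ≠ 1) (hinj : Function.Injective a)
    (c : ι → ℚ) (hc : ∀ i, c i ≠ 0) (k : ι → ℤ) (hk : k ≠ 0) :
    Irrational (∑ i, (k i : ℝ) * ((c i : ℝ) * √(a i : ℝ))) := by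
  rintro ⟨x, hx⟩
  set g : Option ι → {s : ℕ // Squarefree s} := fun o => match o with
    | none => ⟨1, squarefree_one⟩
    | some i => ⟨a i, ha i⟩ with hg
  have hgi : Function.Injective g := by
    intro o o' h
    rcases o with _ | i <;> rcases o' with _ | j
    · rfl
    · exact absurd (Subtype.ext_iff.1 h).symm (h1 j)
    · exact absurd (Subtype.ext_iff.1 h) (h1 i)
    · exact congrArg some (hinj (Subtype.ext_iff.1 h))
  have hli := Pool.Agent.H383.Gauss.sf_indep.comp g hgi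
  rw [Fintype.linearIndependent_iff] at hli
  have h2 := hli (fun o => match o with
    | none => -x
    | some i => (k i : ℚ) * c i) (by
      rw [Fintype.sum_option]
      simp only [Function.comp, hg, Nat.cast_one, Real.sqrt_one, Rat.smul_def]
      push_cast
      rw [hx, mul_one, neg_add_eq_zero]
      exact sum_congr rfl fun i _ => by ring)
  apply hk
  funext i
  have h3 : (k i : ℚ) * c i = 0 := h2 (some i)
  rcases mul_eq_zero.1 h3 with h4 | h4
  · exact_mod_cast h4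
  · exact absurd h4 (hc i)

theorem irr_sq {r : ι → ℕ} (hr : ∀ i, ¬ IsSquare (r i)) (hrr : ∀ i j, i ≠ j → ¬ IsSquare (r i * r j))
    (c : ι → ℚ) (hc : ∀ i, c i ≠ 0) (k : ι → ℤ) (hk : k ≠ 0) :
    Irrational (∑ i, (k i : ℝ) * ((c i : ℝ) * √(r i : ℝ))) := by
  choose a b hab ha using fun i => Nat.sq_mul_squarefree (r i)
  have hb0 : ∀ i, b i ≠ 0 := fun i h => hr i ⟨0, by rw [← hab i, h]; simp⟩
  have ha1 : ∀ i, a i ≠ 1 := fun i h => hr i ⟨b i, by rw [← hab i, h, mul_one, pow_two]⟩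
  have hinj : Function.Injective a := by
    intro i j h
    by_contra hij
    refine hrr i j hij ⟨b i * b j * a i, ?_⟩
    rw [← hab i, ← hab j, h]; ring
  have h1 := irr_comb ha ha1 hinj (fun i => c i * b i) (fun i => mul_ne_zero (hc i) (by exact_mod_cast hb0 i)) k hk
  have e1 : ∀ i, √(r i : ℝ) = b i * √(a i : ℝ) := fun i => by
    rw [← hab i, Nat.cast_mul, Nat.cast_pow, Real.sqrt_mul (by positivity), Real.sqrt_sq (by positivity)]
  have e2 : ∑ i, (k i : ℝ) * ((c i : ℝ) * √(r i : ℝ)) = ∑ i, (k i : ℝ) * (((c i * b i : ℚ) : ℝ) * √(a i : ℝ)) :=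
    sum_congr rfl fun i _ => by rw [e1]; push_cast; ring
  rw [e2]
  exact h1

/-- `√r (2 z + 1) / q` is in the interval from `A` to `B`, modulo one -/
def Arc (q : ℕ) (A B : ℝ) (r : ℕ) (z : ℤ) : Prop :=
  ∃ j : ℤ, A < √(r : ℝ) * (2 * z + 1) / q - j ∧ √(r : ℝ) * (2 * z + 1) / q - j < B

theorem ev_pos {f : ℤ[X]} (hf : 1 ≤ f.natDegree) (hlc : 0 < f.leadingCoeff) :
    ∃ K : ℕ, ∀ k : ℕ, K ≤ k → 0 < f.eval (k : ℤ) := by
  have h1 : Tendsto (fun x : ℝ => (f.map (Int.castRingHom ℝ)).eval x) atTop atTop := by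
    refine Polynomial.tendsto_atTop_of_leadingCoeff_nonneg _ ?_ ?_
    · rw [Polynomial.degree_map_eq_of_injective (by exact_mod_cast Int.cast_injective)]
      exact Polynomial.natDegree_pos_iff_degree_pos.1 hf
    · rw [Polynomial.leadingCoeff_map_of_injective (by exact_mod_cast Int.cast_injective)]
      simp only [eq_intCast]
      exact_mod_cast hlc.le
  have h2 := (h1.comp tendsto_natCast_atTop_atTop).eventually_gt_atTop (0 : ℝ)
  obtain ⟨K, hK⟩ := eventually_atTop.1 h2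
  refine ⟨K, fun k hk => ?_⟩
  have h3 := hK k hk
  simp only [Function.comp] at h3
  rw [show ((k : ℕ) : ℝ) = ((k : ℤ) : ℝ) by push_cast; rfl, Polynomial.eval_intCast_map] at h3
  simpa using h3

open Classical in
/-- **Master theorem**: several windows at once, along `f(k)` and along `f(p)`. -/
theorem master {r : ι → ℕ} (hr : ∀ i, ¬ IsSquare (r i)) (hrr : ∀ i j, i ≠ j → ¬ IsSquare (r i * r j))
    {q : ι → ℕ} (hq : ∀ i, 0 < q i) {A B : ι → ℝ} (hAB : ∀ i, A i ≤ B i) (hB : ∀ i, B i ≤ A i + 1)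
    {f : ℤ[X]} (hf : 1 ≤ f.natDegree) (hlc : 0 < f.leadingCoeff) {c : ℝ} (hc : c < ∏ i, (B i - A i)) :
    (∀ᶠ N : ℕ in atTop, c * N ≤ ((Icc 1 N).filter fun k : ℕ => 0 < f.eval (k : ℤ) ∧
      ∀ i, Arc (q i) (A i) (B i) (r i) (f.eval (k : ℤ))).card) ∧
    (∀ᶠ N : ℕ in atTop, c * (π N : ℝ) ≤ ((PP N).filter fun k : ℕ => 0 < f.eval (k : ℤ) ∧
      ∀ i, Arc (q i) (A i) (B i) (r i) (f.eval (k : ℤ))).card) := by
  obtain ⟨K, hK⟩ := ev_pos hf hlc
  set θ : ι → ℝ := fun i => ((2 / (q i : ℚ) : ℚ) : ℝ) * √(r i : ℝ) with hθ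
  set β : ι → ℝ := fun i => √(r i : ℝ) / q i with hβ
  have hirr : ∀ k : ι → ℤ, k ≠ 0 → Irrational (∑ i, (k i : ℝ) * θ i) := fun k hk =>
    irr_sq hr hrr (fun i => 2 / (q i : ℚ)) (fun i => by have := (hq i).ne'; positivity) k hk
  set U : Set (ι → UnitAddCircle) := Set.pi Set.univ fun i => arc (A i) (B i) with hU
  have hUo : IsOpen U := isOpen_set_pi Set.finite_univ fun i _ => arc_open _ _
  obtain ⟨c', h1, h2⟩ := exists_between hc
  have h3 : c' < (mu ι).real U := h2.trans_le (box_ge hAB hB)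
  have hmem : ∀ k : ℕ, pt θ β f k ∈ U → ∀ i, Arc (q i) (A i) (B i) (r i) (f.eval (k : ℤ)) := by
    intro k hk i
    have h4 : pt θ β f k i ∈ arc (A i) (B i) := hk i (Set.mem_univ i)
    obtain ⟨j, hj⟩ := mem_arc h4
    have hq0 : (q i : ℝ) ≠ 0 := by exact_mod_cast (hq i).ne'
    have e1 : √(r i : ℝ) * (2 * ((f.eval (k : ℤ) : ℤ) : ℝ) + 1) / q i =
        θ i * ((f.eval (k : ℤ) : ℤ) : ℝ) + β i := by
      simp only [hθ, hβ]
      push_cast
      field_simp
    refine ⟨j, ?_⟩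
    rw [e1]; exact hj
  have hcard : ∀ s : Finset ℕ, (∀ k ∈ s, 1 ≤ k) → ((s.filter fun k => pt θ β f k ∈ U).card : ℝ) ≤
      (s.filter fun k : ℕ => 0 < f.eval (k : ℤ) ∧ ∀ i, Arc (q i) (A i) (B i) (r i) (f.eval (k : ℤ))).card + K := by
    intro s hs
    have h5 : s.filter (fun k => pt θ β f k ∈ U) ⊆
        s.filter (fun k : ℕ => 0 < f.eval (k : ℤ) ∧ ∀ i, Arc (q i) (A i) (B i) (r i) (f.eval (k : ℤ))) ∪ range K := by
      intro k hk
      rw [mem_filter] at hk
      rw [mem_union]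
      by_cases hkK : k < K
      · exact Or.inr (mem_range.2 hkK)
      · exact Or.inl (mem_filter.2 ⟨hk.1, hK k (not_lt.1 hkK), hmem k hk.2⟩)
    have h6 := (card_le_card h5).trans (card_union_le _ _)
    rw [card_range] at h6
    exact_mod_cast h6
  have hcc : 0 < c' - c := by linarith
  constructor
  · have h4 := int_open hirr f hf hUo (β := β) h3
    filter_upwards [h4, tendsto_natCast_atTop_atTop.eventually_ge_atTop ((K : ℝ) / (c' - c))] with N h5 h6
    have h7 := hcard (Icc 1 N) fun k hk => (mem_Icc.1 hk).1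
    rw [div_le_iff₀ hcc] at h6
    linarith
  · have h4 := prime_open hirr f hf hUo (β := β) h3
    have hpi : Tendsto (fun N : ℕ => (π N : ℝ)) atTop atTop :=
      tendsto_natCast_atTop_atTop.comp (Nat.tendsto_primeCounting)
    filter_upwards [h4, hpi.eventually_ge_atTop ((K : ℝ) / (c' - c))] with N h5 h6
    have h7 := hcard (PP N) fun k hk => (mem_Icc.1 (mem_filter.1 hk).1).1
    rw [div_le_iff₀ hcc] at h6
    linarith

/-! ### windows -/

/-- the lower half of the window -/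
noncomputable def lo (r : ℕ) : ℝ := min (√(r : ℝ) - 3) (2 / 3 + 9 / (4 * √(r : ℝ)))

/-- the upper half of the window -/
noncomputable def up (r : ℕ) : ℝ := min (√(r : ℝ) - 3) (2 / 3 + 1 / (4 * √(r : ℝ)))

theorem clear2 {r : ℕ} {z : ℤ} (h : Arc 2 ((lo r - 1) / 2) ((1 - up r) / 2) r z) (d : ℤ) :
    ¬ (√(r : ℝ) * (2 * z + 1) - lo r ≤ 2 * (d : ℝ) + 3 ∧ 2 * (d : ℝ) + 3 ≤ √(r : ℝ) * (2 * z + 1) + up r) := by
  rintro ⟨h1, h2⟩
  obtain ⟨j, h3, h4⟩ := h
  push_cast at h3 h4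
  rcases le_or_gt 0 (d - j + 1) with h5 | h5
  · have h6 : (0 : ℝ) ≤ d - j + 1 := by exact_mod_cast h5
    linarith
  · have h6 : (d : ℝ) - j + 1 ≤ -1 := by
      have : d - j + 1 ≤ -1 := by omega
      exact_mod_cast this
    linarith

theorem clear6 {r : ℕ} {z : ℤ} (h : Arc 6 (1 / 2 + lo r / 6) (3 / 2) r z) (d : ℤ) (hd : 3 ∣ d) :
    ¬ (√(r : ℝ) * (2 * z + 1) - lo r ≤ 2 * (d : ℝ) + 3 ∧ 2 * (d : ℝ) + 3 < √(r : ℝ) * (2 * z + 1)) := by
  rintro ⟨h1, h2⟩
  obtain ⟨j, h3, h4⟩ := h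
  obtain ⟨e, rfl⟩ := hd
  push_cast at h1 h2 h3 h4
  rcases le_or_gt 1 (e - j) with h5 | h5
  · have h6 : (1 : ℝ) ≤ e - j := by exact_mod_cast h5
    linarith
  · have h6 : (e : ℝ) - j ≤ 0 := by
      have : e - j ≤ 0 := by omega
      exact_mod_cast this
    linarith

theorem lo_le {r : ℕ} (hr : 10 ≤ r) : lo r ≤ 1.2 := by
  unfold lo
  have hrR : (10 : ℝ) ≤ r := by exact_mod_cast hr
  rcases le_or_gt r 17 with h | h
  · have h1 : (r : ℝ) ≤ 17 := by exact_mod_cast h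
    have h2 : √(r : ℝ) ≤ 4.2 := Real.sqrt_le_iff.2 ⟨by norm_num, by linarith⟩
    exact (min_le_left _ _).trans (by linarith)
  · have h1 : (18 : ℝ) ≤ r := by exact_mod_cast h
    have h2 : 4.22 ≤ √(r : ℝ) := Real.le_sqrt_of_sq_le (by linarith)
    refine (min_le_right _ _).trans ?_
    have h3 : 9 / (4 * √(r : ℝ)) ≤ 8 / 15 := by
      rw [div_le_iff₀ (by positivity)]
      linarith
    linarith

theorem up_le {r : ℕ} (hr : 10 ≤ r) : up r ≤ 0.74 := by
  unfold up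
  have hrR : (10 : ℝ) ≤ r := by exact_mod_cast hr
  rcases le_or_gt r 11 with h | h
  · have h1 : (r : ℝ) ≤ 11 := by exact_mod_cast h
    have h2 : √(r : ℝ) ≤ 3.4 := Real.sqrt_le_iff.2 ⟨by norm_num, by linarith⟩
    exact (min_le_left _ _).trans (by linarith)
  · have h1 : (12 : ℝ) ≤ r := by exact_mod_cast h
    have h2 : 3.46 ≤ √(r : ℝ) := Real.le_sqrt_of_sq_le (by linarith)
    refine (min_le_right _ _).trans ?_
    have h3 : 1 / (4 * √(r : ℝ)) ≤ 11 / 150 := by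
      rw [div_le_iff₀ (by positivity)]
      linarith
    linarith

theorem Arc.mono {q r : ℕ} {A B A' B' : ℝ} {z : ℤ} (h : Arc q A B r z) (h1 : A' ≤ A) (h2 : B ≤ B') :
    Arc q A' B' r z := by
  obtain ⟨j, h3, h4⟩ := h
  exact ⟨j, h1.trans_lt h3, h4.trans_le h2⟩

theorem Arc.scale {q s a : ℕ} {A B : ℝ} {z : ℤ} (ha : 0 < a) (h : Arc q A B s z) :
    Arc q (a * A) (a * B) (a ^ 2 * s) z := by
  obtain ⟨j, h3, h4⟩ := h
  have haR : (0 : ℝ) < a := by exact_mod_cast ha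
  refine ⟨a * j, ?_, ?_⟩
  · rw [Nat.cast_mul, Nat.cast_pow, Real.sqrt_mul (by positivity), Real.sqrt_sq haR.le]
    push_cast
    calc (a : ℝ) * A < a * (√(s : ℝ) * (2 * z + 1) / q - j) := by gcongr
      _ = _ := by ring
  · rw [Nat.cast_mul, Nat.cast_pow, Real.sqrt_mul (by positivity), Real.sqrt_sq haR.le]
    push_cast
    calc _ = a * (√(s : ℝ) * (2 * z + 1) / q - j) := by ring
      _ < (a : ℝ) * B := by gcongr

/-- the squarefree parts of the numbers `10 ≤ r ≤ 36` -/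
def SS : Finset ℕ := {2, 3, 5, 6, 7, 10, 11, 13, 14, 15, 17, 19, 21, 22, 23, 26, 29, 30, 31, 33, 34, 35}

/-- the ends of the arcs -/
noncomputable def ua (s : ℕ) : ℝ := if s = 2 ∨ s = 3 then 0.0334 else if s = 5 ∨ s = 6 ∨ s = 7 then 0.05 else 0.1

/-- the ends of the arcs -/
noncomputable def ub (s : ℕ) : ℝ := if s = 2 then 0.0358 else if s = 3 then 0.0433 else
  if s = 5 ∨ s = 6 ∨ s = 7 then 0.065 else 0.13

theorem ua_lt (s : ℕ) : ua s < ub s := by
  unfold ua ub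
  split_ifs <;> first | (norm_num; done) | (exfalso; omega)

theorem ub_le (s : ℕ) : ub s ≤ ua s + 1 := by
  unfold ua ub
  split_ifs <;> norm_num

/-- **All `10 ≤ r ≤ 36` at once.** -/
theorem all_arcs {z : ℤ} (h : ∀ s ∈ SS, Arc 2 (ua s) (ub s) s z) {r : ℕ} (hr : 10 ≤ r) (hr2 : r ≤ 36)
    (hsq : ¬ IsSquare r) : Arc 2 ((lo r - 1) / 2) ((1 - up r) / 2) r z := by
  have hlo := lo_le hr
  have hup := up_le hr
  have base : Arc 2 0.1 0.13 r z → Arc 2 ((lo r - 1) / 2) ((1 - up r) / 2) r z := fun h1 =>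
    h1.mono (by linarith) (by linarith)
  by_cases h12 : r = 12
  · subst h12
    have h1 := (h 3 (by decide)).scale (a := 2) (by norm_num)
    have h2 : √((12 : ℕ) : ℝ) ≤ 3.5 := Real.sqrt_le_iff.2 ⟨by norm_num, by norm_num⟩
    have h3 : lo 12 ≤ 0.5 := (min_le_left _ _).trans (by linarith)
    have h4 : up 12 ≤ 0.5 := (min_le_left _ _).trans (by linarith)
    have e1 : ua 3 = 0.0334 := by unfold ua; norm_num
    have e2 : ub 3 = 0.0433 := by unfold ub; norm_num
    rw [e1, e2] at h1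
    exact h1.mono (by norm_num; linarith) (by norm_num; linarith)
  by_cases h32 : r = 32
  · subst h32
    have h1 := (h 2 (by decide)).scale (a := 4) (by norm_num)
    have h2 : 5.6 ≤ √((32 : ℕ) : ℝ) := Real.le_sqrt_of_sq_le (by norm_num)
    have h4 : up 32 ≤ 0.7136 := (min_le_right _ _).trans (by
      have h5 : 1 / (4 * √((32 : ℕ) : ℝ)) ≤ 0.0469 := by
        rw [div_le_iff₀ (by positivity)]
        linarith
      linarith)
    have e1 : ua 2 = 0.0334 := by unfold ua; norm_num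
    have e2 : ub 2 = 0.0358 := by unfold ub; norm_num
    rw [e1, e2] at h1
    exact h1.mono (by norm_num; linarith) (by norm_num; linarith)
  apply base
  by_cases hS : r ∈ SS
  · have h1 := h r hS
    have hn : ¬ (r = 2 ∨ r = 3) ∧ ¬ (r = 5 ∨ r = 6 ∨ r = 7) ∧ r ≠ 2 ∧ r ≠ 3 := by omega
    have e1 : ua r = 0.1 := by unfold ua; rw [if_neg hn.1, if_neg hn.2.1]
    have e2 : ub r = 0.13 := by unfold ub; rw [if_neg hn.2.2.1, if_neg hn.2.2.2, if_neg hn.2.1]
    rwa [e1, e2] at h1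
  have hcase : r = 18 ∨ r = 20 ∨ r = 24 ∨ r = 27 ∨ r = 28 := by
    unfold SS at hS
    simp only [mem_insert, mem_singleton, not_or] at hS
    have h16 : r ≠ 16 := fun h => hsq ⟨4, by omega⟩
    have h25 : r ≠ 25 := fun h => hsq ⟨5, by omega⟩
    have h36 : r ≠ 36 := fun h => hsq ⟨6, by omega⟩
    omega
  rcases hcase with rfl | rfl | rfl | rfl | rfl
  · have h1 := (h 2 (by decide)).scale (a := 3) (by norm_num)
    have e1 : ua 2 = 0.0334 := by unfold ua; norm_num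
    have e2 : ub 2 = 0.0358 := by unfold ub; norm_num
    rw [e1, e2] at h1
    exact h1.mono (by norm_num) (by norm_num)
  · have h1 := (h 5 (by decide)).scale (a := 2) (by norm_num)
    have e1 : ua 5 = 0.05 := by unfold ua; norm_num
    have e2 : ub 5 = 0.065 := by unfold ub; norm_num
    rw [e1, e2] at h1
    exact h1.mono (by norm_num) (by norm_num)
  · have h1 := (h 6 (by decide)).scale (a := 2) (by norm_num)
    have e1 : ua 6 = 0.05 := by unfold ua; norm_num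
    have e2 : ub 6 = 0.065 := by unfold ub; norm_num
    rw [e1, e2] at h1
    exact h1.mono (by norm_num) (by norm_num)
  · have h1 := (h 3 (by decide)).scale (a := 3) (by norm_num)
    have e1 : ua 3 = 0.0334 := by unfold ua; norm_num
    have e2 : ub 3 = 0.0433 := by unfold ub; norm_num
    rw [e1, e2] at h1
    exact h1.mono (by norm_num) (by norm_num)
  · have h1 := (h 7 (by decide)).scale (a := 2) (by norm_num)
    have e1 : ua 7 = 0.05 := by unfold ua; norm_num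
    have e2 : ub 7 = 0.065 := by unfold ub; norm_num
    rw [e1, e2] at h1
    exact h1.mono (by norm_num) (by norm_num)

theorem SS_sf : ∀ s ∈ SS, Squarefree s := by
  intro s hs
  unfold SS at hs
  simp only [mem_insert, mem_singleton] at hs
  rcases hs with rfl | rfl | rfl | rfl | rfl | rfl | rfl | rfl | rfl | rfl | rfl | rfl | rfl | rfl | rfl | rfl | rfl | rfl |
    rfl | rfl | rfl | rfl <;> decide +kernel

theorem SS_pair (s t : {s // s ∈ SS}) (hst : s ≠ t) : ¬ IsSquare ((s : ℕ) * (t : ℕ)) := by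
  rintro ⟨x, hx⟩
  -- squarefree numbers whose product is a square are equal
  apply hst
  apply Subtype.ext
  have hs := SS_sf s s.2
  have ht := SS_sf t t.2
  have h3 : (s : ℕ) ∣ x ^ 2 := ⟨t, by rw [pow_two, hx]⟩
  have h4 : (t : ℕ) ∣ x ^ 2 := ⟨s, by rw [pow_two, ← hx, mul_comm]⟩
  have h5 : (s : ℕ) ∣ x := (hs.dvd_pow_iff_dvd two_ne_zero).1 h3
  have h6 : (t : ℕ) ∣ x := (ht.dvd_pow_iff_dvd two_ne_zero).1 h4
  have hs0 : 0 < (s : ℕ) := Nat.pos_of_ne_zero hs.ne_zero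
  have ht0 : 0 < (t : ℕ) := Nat.pos_of_ne_zero ht.ne_zero
  have hx0 : 0 < x := by
    rcases Nat.eq_zero_or_pos x with h0 | h0
    · rw [h0] at hx
      have := Nat.mul_pos hs0 ht0
      omega
    · exact h0
  have h7 := Nat.le_of_dvd hx0 h5
  have h8 := Nat.le_of_dvd hx0 h6
  nlinarith [Nat.mul_le_mul h7 h8]

/-- the constant -/
noncomputable def kap : ℝ := (∏ s : {s // s ∈ SS}, (ub s - ua s)) / 2

theorem kap_pos : 0 < kap := by
  unfold kap
  have : 0 < ∏ s : {s // s ∈ SS}, (ub s - ua s) := prod_pos fun s _ => sub_pos.2 (ua_lt s)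
  positivity

open Classical in
/-- **All windows at once**, for a positive proportion. -/
theorem all_windows {f : ℤ[X]} (hf : 1 ≤ f.natDegree) (hlc : 0 < f.leadingCoeff) :
    (∀ᶠ N : ℕ in atTop, kap * N ≤ ((Icc 1 N).filter fun k : ℕ => 0 < f.eval (k : ℤ) ∧
      ∀ r : ℕ, 10 ≤ r → r ≤ 36 → ¬ IsSquare r → Arc 2 ((lo r - 1) / 2) ((1 - up r) / 2) r (f.eval (k : ℤ))).card) ∧
    (∀ᶠ N : ℕ in atTop, kap * (π N : ℝ) ≤ ((PP N).filter fun k : ℕ => 0 < f.eval (k : ℤ) ∧
      ∀ r : ℕ, 10 ≤ r → r ≤ 36 → ¬ IsSquare r → Arc 2 ((lo r - 1) / 2) ((1 - up r) / 2) r (f.eval (k : ℤ))).card) := by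
  have hnsq : ∀ s ∈ SS, s ≠ 1 := by decide
  have hsq1 : ∀ s : ℕ, Squarefree s → IsSquare s → s = 1 := by
    rintro s h1 ⟨t, rfl⟩
    have := h1 t dvd_rfl
    rw [Nat.isUnit_iff] at this
    rw [this]
  have h2 : kap < ∏ s : {s // s ∈ SS}, (ub s - ua s) := by
    have := kap_pos
    unfold kap at this ⊢
    linarith
  obtain ⟨g1, g2⟩ := master (ι := {s // s ∈ SS}) (r := fun s => s) (q := fun _ => 2) (A := fun s => ua s)
    (B := fun s => ub s) (fun s h => hnsq s s.2 (hsq1 _ (SS_sf s s.2) h))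
    SS_pair
    (fun _ => by norm_num) (fun s => (ua_lt s).le) (fun s => ub_le s) hf hlc h2
  constructor
  · filter_upwards [g1] with N hN
    refine hN.trans (Nat.cast_le.2 (card_le_card fun k hk => ?_))
    rw [mem_filter] at hk ⊢
    exact ⟨hk.1, hk.2.1, fun r h3 h4 h5 => all_arcs (fun s hs => hk.2.2 ⟨s, hs⟩) h3 h4 h5⟩
  · filter_upwards [g2] with N hN
    refine hN.trans (Nat.cast_le.2 (card_le_card fun k hk => ?_))
    rw [mem_filter] at hk ⊢
    exact ⟨hk.1, hk.2.1, fun r h3 h4 h5 => all_arcs (fun s hs => hk.2.2 ⟨s, hs⟩) h3 h4 h5⟩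

end Pool.Agent.Q117.HH
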