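import Pool.Agent.Q117.HH.C

set_option autoImplicit false

/-!
# From arcs to properties of the multiplicity `m = f(k)`
-/

namespace Pool.Agent.Q117.HH

open Filter Topology Finset Polynomial
open scoped Nat.Prime

/-- `2 d + 3` is in the window around `√r (2 m + 1)` -/
def Win (r m d : ℕ) : Prop :=
  √(r : ℝ) * (2 * m + 1) - lo r ≤ 2 * (d : ℝ) + 3 ∧ 2 * (d : ℝ) + 3 ≤ √(r : ℝ) * (2 * m + 1) + up r

/-- the part of the window which is left if only the degrees divisible by three below `(√r (2 m + 1) - 3) / 2` are open -/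
def Win3 (r m d : ℕ) : Prop :=
  3 ∣ d ∧ √(r : ℝ) * (2 * m + 1) - lo r ≤ 2 * (d : ℝ) + 3 ∧ 2 * (d : ℝ) + 3 < √(r : ℝ) * (2 * m + 1)

/-- the bound for the proportion of the bad multiplicities -/
noncomputable def be (T : Finset ℕ) (r : ℕ) : ℝ := if r ∈ T then lo r / 6 else (lo r + up r) / 2

theorem lo_nonneg {r : ℕ} (hr : 9 ≤ r) : 0 ≤ lo r := by
  have hrR : (9 : ℝ) ≤ r := by exact_mod_cast hr
  have h1 : 3 ≤ √(r : ℝ) := Real.le_sqrt_of_sq_le (by linarith)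
  exact le_min (by linarith) (by positivity)

theorem up_nonneg {r : ℕ} (hr : 9 ≤ r) : 0 ≤ up r := by
  have hrR : (9 : ℝ) ≤ r := by exact_mod_cast hr
  have h1 : 3 ≤ √(r : ℝ) := Real.le_sqrt_of_sq_le (by linarith)
  exact le_min (by linarith) (by positivity)

theorem be_lt {T : Finset ℕ} {r : ℕ} (hr : 10 ≤ r) : be T r < 1 := by
  unfold be
  have := lo_le hr
  have := up_le hr
  split_ifs <;> linarith

theorem be_nonneg {T : Finset ℕ} {r : ℕ} (hr : 10 ≤ r) : 0 ≤ be T r := by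
  unfold be
  have := lo_nonneg (by omega : 9 ≤ r)
  have := up_nonneg (by omega : 9 ≤ r)
  split_ifs <;> linarith

theorem ncard_ge (S : Set ℕ) (N : ℕ) (P : ℕ → Prop) [DecidablePred P] (h : ∀ k, 1 ≤ k → k ≤ N → P k → k ∈ S)
    (hS : ∀ k ∈ S, k ≤ N) : ((Icc 1 N).filter P).card ≤ S.ncard := by
  rw [← Set.ncard_coe_finset]
  refine Set.ncard_le_ncard (fun k hk => ?_) ((Set.finite_Iic N).subset fun k hk => hS k hk)
  rw [Finset.mem_coe, mem_filter, mem_Icc] at hk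
  exact h k hk.1.1 hk.1.2 hk.2

theorem ncard_ge_prime (S : Set ℕ) (N : ℕ) (P : ℕ → Prop) [DecidablePred P] (h : ∀ k, k.Prime → k ≤ N → P k → k ∈ S)
    (hS : ∀ k ∈ S, k ≤ N) : ((PP N).filter P).card ≤ S.ncard := by
  rw [← Set.ncard_coe_finset]
  refine Set.ncard_le_ncard (fun k hk => ?_) ((Set.finite_Iic N).subset fun k hk => hS k hk)
  unfold PP at hk
  rw [Finset.mem_coe, mem_filter, mem_filter, mem_Icc] at hk
  exact h k hk.1.2 hk.1.1.2 hk.2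

/-- the `k ≤ N` for which `f(k)` is positive with property `Q` -/
noncomputable def cntI (Q : ℕ → Prop) (f : ℤ[X]) (N : ℕ) : ℕ :=
  Set.ncard {k : ℕ | 1 ≤ k ∧ k ≤ N ∧ 0 < f.eval (k : ℤ) ∧ Q (f.eval (k : ℤ)).toNat}

/-- the primes `p ≤ N` for which `f(p)` is positive with property `Q` -/
noncomputable def cntP (Q : ℕ → Prop) (f : ℤ[X]) (N : ℕ) : ℕ :=
  Set.ncard {p : ℕ | p.Prime ∧ p ≤ N ∧ 0 < f.eval (p : ℤ) ∧ Q (f.eval (p : ℤ)).toNat}

theorem toNat_cast {z : ℤ} (hz : 0 < z) : ((z.toNat : ℕ) : ℝ) = (z : ℝ) := by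
  have : ((z.toNat : ℕ) : ℤ) = z := Int.toNat_of_nonneg hz.le
  exact_mod_cast congrArg (fun t : ℤ => (t : ℝ)) this

theorem not_win {r : ℕ} {z : ℤ} (hz : 0 < z) (h : Arc 2 ((lo r - 1) / 2) ((1 - up r) / 2) r z) (d : ℕ) :
    ¬ Win r z.toNat d := by
  unfold Win
  rw [toNat_cast hz]
  have := clear2 h d
  push_cast at this
  exact this

theorem not_win3 {r : ℕ} {z : ℤ} (hz : 0 < z) (h : Arc 6 (1 / 2 + lo r / 6) (3 / 2) r z) (d : ℕ) :
    ¬ Win3 r z.toNat d := by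
  unfold Win3
  rw [toNat_cast hz]
  rintro ⟨hd, h1, h2⟩
  have := clear6 h d (by exact_mod_cast hd)
  push_cast at this
  exact this ⟨h1, h2⟩

/-- **All `10 ≤ r ≤ 36` at once.** -/
theorem joint {Q : ℕ → Prop} (hQ : ∀ m : ℕ, 0 < m → (∀ r : ℕ, 10 ≤ r → r ≤ 36 → ¬ IsSquare r → ∀ d, ¬ Win r m d) → Q m)
    {f : ℤ[X]} (hf : 1 ≤ f.natDegree) (hlc : 0 < f.leadingCoeff) :
    ∀ᶠ N : ℕ in atTop, kap * N ≤ cntI Q f N ∧ kap * (π N : ℝ) ≤ cntP Q f N := by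
  classical
  obtain ⟨g1, g2⟩ := all_windows hf hlc
  have key : ∀ k : ℕ, (0 < f.eval (k : ℤ) ∧
      ∀ r : ℕ, 10 ≤ r → r ≤ 36 → ¬ IsSquare r → Arc 2 ((lo r - 1) / 2) ((1 - up r) / 2) r (f.eval (k : ℤ))) →
      0 < f.eval (k : ℤ) ∧ Q (f.eval (k : ℤ)).toNat := by
    rintro k ⟨h1, h2⟩
    refine ⟨h1, hQ _ (by omega) fun r h3 h4 h5 d => not_win h1 (h2 r h3 h4 h5) d⟩
  filter_upwards [g1, g2] with N h1 h2
  constructor
  · refine h1.trans (Nat.cast_le.2 (ncard_ge _ N _ (fun k hk1 hk2 hk => ?_) fun k hk => hk.2.1))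
    exact ⟨hk1, hk2, key k hk⟩
  · refine h2.trans (Nat.cast_le.2 (ncard_ge_prime _ N _ (fun k hk1 hk2 hk => ?_) fun k hk => hk.2.1))
    exact ⟨hk1, hk2, key k hk⟩

/-- **Several `r` with different squarefree parts.** -/
theorem several {Q : ℕ → Prop} {R T : Finset ℕ} (hR : ∀ r ∈ R, 10 ≤ r) (hsq : ∀ r ∈ R, ¬ IsSquare r)
    (hpair : ∀ r ∈ R, ∀ s ∈ R, r ≠ s → ¬ IsSquare (r * s))
    (hQ : ∀ m : ℕ, 0 < m → (∀ r ∈ R, r ∈ T → ∀ d, ¬ Win3 r m d) → (∀ r ∈ R, r ∉ T → ∀ d, ¬ Win r m d) → Q m)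
    {f : ℤ[X]} (hf : 1 ≤ f.natDegree) (hlc : 0 < f.leadingCoeff) {ε : ℝ} (hε : 0 < ε) :
    ∀ᶠ N : ℕ in atTop, (∏ r ∈ R, (1 - be T r) - ε) * N ≤ cntI Q f N ∧
      (∏ r ∈ R, (1 - be T r) - ε) * (π N : ℝ) ≤ cntP Q f N := by
  classical
  set q : {r // r ∈ R} → ℕ := fun r => if (r : ℕ) ∈ T then 6 else 2 with hq
  set A : {r // r ∈ R} → ℝ := fun r => if (r : ℕ) ∈ T then 1 / 2 + lo r / 6 else (lo r - 1) / 2 with hA
  set B : {r // r ∈ R} → ℝ := fun r => if (r : ℕ) ∈ T then 3 / 2 else (1 - up r) / 2 with hB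
  have hBA : ∀ r, B r - A r = 1 - be T r := by
    intro r
    simp only [hA, hB]
    unfold be
    split_ifs <;> ring
  have hprod : ∏ r, (B r - A r) = ∏ r ∈ R, (1 - be T r) := by
    rw [← Finset.prod_coe_sort R]
    exact prod_congr rfl fun r _ => hBA r
  obtain ⟨g1, g2⟩ := master (ι := {r // r ∈ R}) (r := fun r => r) (q := q) (A := A) (B := B)
    (fun r => hsq r r.2) (fun r s hrs => hpair r r.2 s s.2 fun h => hrs (Subtype.ext h))
    (fun r => by simp only [hq]; split_ifs <;> norm_num)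
    (fun r => by have h1 := be_lt (T := T) (hR r r.2); linarith [hBA r])
    (fun r => by have h1 := be_nonneg (T := T) (hR r r.2); linarith [hBA r]) hf hlc
    (c := ∏ r ∈ R, (1 - be T r) - ε) (by rw [hprod]; linarith)
  have key : ∀ k : ℕ, (0 < f.eval (k : ℤ) ∧ ∀ r : {r // r ∈ R}, Arc (q r) (A r) (B r) r (f.eval (k : ℤ))) →
      0 < f.eval (k : ℤ) ∧ Q (f.eval (k : ℤ)).toNat := by
    rintro k ⟨h1, h2⟩
    refine ⟨h1, hQ _ (by omega) (fun r hr hT d => not_win3 h1 ?_ d) fun r hr hT d => not_win h1 ?_ d⟩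
    · have h3 := h2 ⟨r, hr⟩
      simp only [hq, hA, hB, if_pos hT] at h3
      exact h3
    · have h3 := h2 ⟨r, hr⟩
      simp only [hq, hA, hB, if_neg hT] at h3
      exact h3
  filter_upwards [g1, g2] with N h1 h2
  constructor
  · refine h1.trans (Nat.cast_le.2 (ncard_ge _ N _ (fun k hk1 hk2 hk => ?_) fun k hk => hk.2.1))
    exact ⟨hk1, hk2, key k hk⟩
  · refine h2.trans (Nat.cast_le.2 (ncard_ge_prime _ N _ (fun k hk1 hk2 hk => ?_) fun k hk => hk.2.1))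
    exact ⟨hk1, hk2, key k hk⟩

/-! ### numerical values -/

theorem be_ten {T : Finset ℕ} (hT : 10 ∉ T) : be T 10 < 0.163 := by
  unfold be lo up
  rw [if_neg hT]
  have h2 : √((10 : ℕ) : ℝ) ≤ 3.1628 := Real.sqrt_le_iff.2 ⟨by norm_num, by norm_num⟩
  have h3 := min_le_left (√((10 : ℕ) : ℝ) - 3) (2 / 3 + 9 / (4 * √((10 : ℕ) : ℝ)))
  have h4 := min_le_left (√((10 : ℕ) : ℝ) - 3) (2 / 3 + 1 / (4 * √((10 : ℕ) : ℝ)))
  linarith

theorem be_eleven {T : Finset ℕ} (hT : 11 ∈ T) : be T 11 < 0.053 := by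
  unfold be lo
  rw [if_pos hT]
  have h2 : √((11 : ℕ) : ℝ) ≤ 3.317 := Real.sqrt_le_iff.2 ⟨by norm_num, by norm_num⟩
  have h3 := min_le_left (√((11 : ℕ) : ℝ) - 3) (2 / 3 + 9 / (4 * √((11 : ℕ) : ℝ)))
  linarith

theorem be_fifteen {T : Finset ℕ} (hT : 15 ∈ T) : be T 15 < 0.146 := by
  unfold be lo
  rw [if_pos hT]
  have h2 : √((15 : ℕ) : ℝ) ≤ 3.873 := Real.sqrt_le_iff.2 ⟨by norm_num, by norm_num⟩
  have h3 := min_le_left (√((15 : ℕ) : ℝ) - 3) (2 / 3 + 9 / (4 * √((15 : ℕ) : ℝ)))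
  linarith

theorem be_thirteen {T : Finset ℕ} (hT : 13 ∈ T) : be T 13 < 0.101 := by
  unfold be lo
  rw [if_pos hT]
  have h2 : √((13 : ℕ) : ℝ) ≤ 3.6056 := Real.sqrt_le_iff.2 ⟨by norm_num, by norm_num⟩
  have h3 := min_le_left (√((13 : ℕ) : ℝ) - 3) (2 / 3 + 9 / (4 * √((13 : ℕ) : ℝ)))
  linarith

end Pool.Agent.Q117.HH
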