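import Pool.Agent.Q117.HH.D

set_option autoImplicit false

/-!
# Every interval of multiplicities
-/

namespace Pool.Agent.Q117.HH

open MeasureTheory Filter Topology Finset Polynomial
open UnitAddTorus (mFourier)
open Pool.Agent.Helper602.MK (ee)
open Pool.Agent.Helper602.MK.N_J5b (ee_add norm_ee)

variable {ι : Type} [Fintype ι]

theorem ee_ne_one {θ : ℝ} (hθ : Irrational θ) : ee θ ≠ 1 := by
  intro h
  unfold ee at h
  rw [Complex.exp_eq_one_iff] at h
  obtain ⟨n, hn⟩ := h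
  have h2 : (2 * (Real.pi : ℂ) * Complex.I) ≠ 0 := by
    simp [Real.pi_ne_zero]
  have h3 : ((θ : ℝ) : ℂ) = ((n : ℝ) : ℂ) := by
    apply mul_right_cancel₀ h2
    rw [show (((n : ℤ) : ℝ) : ℂ) = (n : ℂ) by push_cast; rfl, ← hn]
    ring
  exact hθ ⟨n, by exact_mod_cast (Complex.ofReal_injective h3).symm⟩

theorem geom_bound {θ : ℝ} (hθ : Irrational θ) (x N : ℕ) :
    ‖∑ n ∈ Icc (x + 1) (x + N), ee (θ * n)‖ ≤ 2 / ‖ee θ - 1‖ := by
  have h1 : 0 < ‖ee θ - 1‖ := norm_pos_iff.2 (sub_ne_zero.2 (ee_ne_one hθ))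
  rw [le_div_iff₀ h1, ← norm_mul]
  have e1 : (∑ n ∈ Icc (x + 1) (x + N), ee (θ * n)) * (ee θ - 1) = ee (θ * (x + N + 1 : ℕ)) - ee (θ * (x + 1 : ℕ)) := by
    induction N with
    | zero => simp
    | succ N ih =>
      rw [show x + (N + 1) = x + N + 1 by ring, Finset.sum_Icc_succ_top (by omega), add_mul, ih, mul_sub, mul_one]
      rw [← ee_add, show θ * ((x + N + 1 : ℕ) : ℝ) + θ = θ * ((x + N + 1 + 1 : ℕ) : ℝ) by push_cast; ring]
      ring
  rw [e1]
  refine (norm_sub_le _ _).trans ?_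
  rw [norm_ee, norm_ee]
  norm_num

open Classical in
/-- **Well-distribution**: several windows at once, in every interval. -/
theorem short {r : ι → ℕ} (hr : ∀ i, ¬ IsSquare (r i)) (hrr : ∀ i j, i ≠ j → ¬ IsSquare (r i * r j))
    {q : ι → ℕ} (hq : ∀ i, 0 < q i) {A B : ι → ℝ} (hAB : ∀ i, A i ≤ B i) (hB : ∀ i, B i ≤ A i + 1)
    {c : ℝ} (hc : c < ∏ i, (B i - A i)) :
    ∀ᶠ N : ℕ in atTop, ∀ x : ℕ, c * N ≤ ((Icc (x + 1) (x + N)).filter fun k : ℕ =>
      ∀ i, Arc (q i) (A i) (B i) (r i) (k : ℤ)).card := by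
  set θ : ι → ℝ := fun i => ((2 / (q i : ℚ) : ℚ) : ℝ) * √(r i : ℝ) with hθ
  set β : ι → ℝ := fun i => √(r i : ℝ) / q i with hβ
  have hirr : ∀ k : ι → ℤ, k ≠ 0 → Irrational (∑ i, (k i : ℝ) * θ i) := fun k hk =>
    irr_sq hr hrr (fun i => 2 / (q i : ℚ)) (fun i => by have := (hq i).ne'; positivity) k hk
  set U : Set (ι → UnitAddCircle) := Set.pi Set.univ fun i => arc (A i) (B i) with hU
  have hUo : IsOpen U := isOpen_set_pi Set.finite_univ fun i _ => arc_open _ _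
  set P : ℕ → ℕ → Prop := fun N x => c * N ≤ ((Icc (x + 1) (x + N)).filter fun k : ℕ =>
      ∀ i, Arc (q i) (A i) (B i) (r i) (k : ℤ)).card with hP
  -- the worst interval
  obtain ⟨x, hx⟩ : ∃ x : ℕ → ℕ, ∀ N, P N (x N) → ∀ y, P N y := by
    choose! x hx using fun (N : ℕ) (h : ∃ y, ¬ P N y) => h
    refine ⟨x, fun N h y => ?_⟩
    by_contra hcon
    exact hx N ⟨y, hcon⟩ h
  have hpos : ∀ᶠ N : ℕ in atTop, 0 < ∑ _n ∈ Icc (x N + 1) (x N + N), (1 : ℝ) := by
    filter_upwards [eventually_ge_atTop 1] with N hN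
    rw [sum_const, Nat.card_Icc, nsmul_eq_mul, mul_one]
    have : 0 < x N + N + 1 - (x N + 1) := by omega
    exact_mod_cast this
  have hav : ∀ k : ι → ℤ, k ≠ 0 → Tendsto (fun N => av (Icc (x N + 1) (x N + N)) (fun _ => 1) (pt θ β X)
      (mFourier k)) atTop (𝓝 0) := by
    intro k hk
    set T : ℝ := ∑ i, (k i : ℝ) * θ i with hT
    have h2 : Tendsto (fun N : ℕ => (2 / ‖ee T - 1‖) / (N : ℝ)) atTop (𝓝 0) :=
      tendsto_const_nhds.div_atTop tendsto_natCast_atTop_atTop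
    refine squeeze_zero_norm (fun N => ?_) h2
    unfold av
    simp only [mF_pt, Complex.ofReal_one, one_mul, eval_X, sum_const, Nat.card_Icc, nsmul_eq_mul, mul_one]
    rw [← sum_mul, norm_div, norm_mul_ee, Complex.norm_real, Real.norm_of_nonneg (Nat.cast_nonneg _),
      show x N + N + 1 - (x N + 1) = N by omega]
    refine div_le_div_of_nonneg_right ?_ (Nat.cast_nonneg N)
    have := geom_bound (hirr k hk) (x N) N
    simpa using this
  have h3 := open_lower (w := fun _ => 1) (fun _ => zero_le_one) (pt θ β X) hpos hav hUo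
    (hc.trans_le (box_ge hAB hB))
  filter_upwards [h3] with N hN y
  refine hx N ?_ y
  simp only [sum_const, Nat.card_Icc, nsmul_eq_mul, mul_one] at hN
  rw [show x N + N + 1 - (x N + 1) = N by omega] at hN
  refine hN.trans (Nat.cast_le.2 (card_le_card fun k hk => ?_))
  rw [mem_filter] at hk ⊢
  refine ⟨hk.1, fun i => ?_⟩
  have h4 : pt θ β X k i ∈ arc (A i) (B i) := hk.2 i (Set.mem_univ i)
  obtain ⟨j, hj⟩ := mem_arc h4
  have hq0 : (q i : ℝ) ≠ 0 := by exact_mod_cast (hq i).ne'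
  have e1 : √(r i : ℝ) * (2 * ((k : ℤ) : ℝ) + 1) / q i = θ i * (((X : ℤ[X]).eval (k : ℤ) : ℤ) : ℝ) + β i := by
    simp only [hθ, hβ, eval_X]
    push_cast
    field_simp
  refine ⟨j, ?_⟩
  rw [e1]; exact hj

/-- the `m` among the `N` numbers after `x` with property `Q` -/
noncomputable def cntS (Q : ℕ → Prop) (x N : ℕ) : ℕ := Set.ncard {m : ℕ | x < m ∧ m ≤ x + N ∧ Q m}

theorem cntS_ge {Q : ℕ → Prop} (x N : ℕ) (P : ℕ → Prop) [DecidablePred P] (h : ∀ m, 0 < m → P m → Q m) :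
    ((Icc (x + 1) (x + N)).filter P).card ≤ cntS Q x N := by
  unfold cntS
  rw [← Set.ncard_coe_finset]
  refine Set.ncard_le_ncard (fun k hk => ?_) ((Set.finite_Iic (x + N)).subset fun k hk => hk.2.1)
  rw [Finset.mem_coe, mem_filter, mem_Icc] at hk
  exact ⟨by omega, hk.1.2, h k (by omega) hk.2⟩

/-- **All `10 ≤ r ≤ 36` at once, in every interval.** -/
theorem joint_short {Q : ℕ → Prop}
    (hQ : ∀ m : ℕ, 0 < m → (∀ r : ℕ, 10 ≤ r → r ≤ 36 → ¬ IsSquare r → ∀ d, ¬ Win r m d) → Q m) :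
    ∀ᶠ N : ℕ in atTop, ∀ x : ℕ, kap * N ≤ cntS Q x N := by
  classical
  have h2 : kap < ∏ s : {s // s ∈ SS}, (ub s - ua s) := by
    have := kap_pos
    unfold kap at this ⊢
    linarith
  have hsq1 : ∀ s : ℕ, Squarefree s → IsSquare s → s = 1 := by
    rintro s h1 ⟨t, rfl⟩
    have := h1 t dvd_rfl
    rw [Nat.isUnit_iff] at this
    rw [this]
  have hnsq : ∀ s ∈ SS, s ≠ 1 := by decide
  have g1 := short (ι := {s // s ∈ SS}) (r := fun s => s) (q := fun _ => 2) (A := fun s => ua s)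
    (B := fun s => ub s) (fun s h => hnsq s s.2 (hsq1 _ (SS_sf s s.2) h)) SS_pair
    (fun _ => by norm_num) (fun s => (ua_lt s).le) (fun s => ub_le s) h2
  filter_upwards [g1] with N hN x
  refine (hN x).trans (Nat.cast_le.2 (cntS_ge x N _ fun m hm hk => ?_))
  refine hQ m hm fun r h3 h4 h5 d => ?_
  have h6 := not_win (z := (m : ℤ)) (by exact_mod_cast hm) (all_arcs (fun s hs => hk ⟨s, hs⟩) h3 h4 h5) d
  simpa using h6

/-- **Several `r` with different squarefree parts, in every interval.** -/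
theorem several_short {Q : ℕ → Prop} {R T : Finset ℕ} (hR : ∀ r ∈ R, 10 ≤ r) (hsq : ∀ r ∈ R, ¬ IsSquare r)
    (hpair : ∀ r ∈ R, ∀ s ∈ R, r ≠ s → ¬ IsSquare (r * s))
    (hQ : ∀ m : ℕ, 0 < m → (∀ r ∈ R, r ∈ T → ∀ d, ¬ Win3 r m d) → (∀ r ∈ R, r ∉ T → ∀ d, ¬ Win r m d) → Q m)
    {ε : ℝ} (hε : 0 < ε) :
    ∀ᶠ N : ℕ in atTop, ∀ x : ℕ, (∏ r ∈ R, (1 - be T r) - ε) * N ≤ cntS Q x N := by
  classical
  set q : {r // r ∈ R} → ℕ := fun r => if (r : ℕ) ∈ T then 6 else 2 with hq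
  set A : {r // r ∈ R} → ℝ := fun r => if (r : ℕ) ∈ T then 1 / 2 + lo r / 6 else (lo r - 1) / 2 with hA
  set B : {r // r ∈ R} → ℝ := fun r => if (r : ℕ) ∈ T then 3 / 2 else (1 - up r) / 2 with hB
  have hBA : ∀ r, B r - A r = 1 - be T r := by
    intro r
    simp only [hA, hB]
    unfold be
    split_ifs <;> ring
  have hprod : ∏ r, (B r - A r) = ∏ r ∈ R, (1 - be T r) := by
    rw [← Finset.prod_coe_sort R]
    exact prod_congr rfl fun r _ => hBA r
  have g1 := short (ι := {r // r ∈ R}) (r := fun r => r) (q := q) (A := A) (B := B)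
    (fun r => hsq r r.2) (fun r s hrs => hpair r r.2 s s.2 fun h => hrs (Subtype.ext h))
    (fun r => by simp only [hq]; split_ifs <;> norm_num)
    (fun r => by have h1 := be_lt (T := T) (hR r r.2); linarith [hBA r])
    (fun r => by have h1 := be_nonneg (T := T) (hR r r.2); linarith [hBA r])
    (c := ∏ r ∈ R, (1 - be T r) - ε) (by rw [hprod]; linarith)
  filter_upwards [g1] with N hN x
  refine (hN x).trans (Nat.cast_le.2 (cntS_ge x N _ fun m hm hk => ?_))
  refine hQ m hm (fun r hr hT d => ?_) fun r hr hT d => ?_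
  · have h3 := hk ⟨r, hr⟩
    simp only [hq, hA, hB, if_pos hT] at h3
    have := not_win3 (z := (m : ℤ)) (by exact_mod_cast hm) h3 d
    simpa using this
  · have h3 := hk ⟨r, hr⟩
    simp only [hq, hA, hB, if_neg hT] at h3
    have := not_win (z := (m : ℤ)) (by exact_mod_cast hm) h3 d
    simpa using this

end Pool.Agent.Q117.HH
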